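import Mathlib

/-!
# THEOREM NI2 (MP_cda23d, think 1713), chapter S, section (A): rings with a degree form

`R` a ring, `d : R → ℤ` nonnegative, multiplicative, zero only at `0`, `d 1 = 1`, `d 2 = 4`, `d (x+y) + d (x-y) ≤ 2 d x + 2 d y`.
Then `d` is a quadratic form, `x² - B(x,1) x + d x = 0`, and the elements commuting with an `F`, `F² = -l` (`l` a prime), are counted.
-/

set_option autoImplicit false

namespace Pool.Agent.H13.AS

/-- a ring with a degree form -/
structure DegForm {R : Type} [Ring R] (d : R → ℤ) : Prop where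
  nonneg : ∀ x, 0 ≤ d x
  zero : ∀ x, d x = 0 → x = 0
  mul : ∀ x y, d (x * y) = d x * d y
  one : d 1 = 1
  two : d 2 = 4
  par : ∀ x y, d (x + y) + d (x - y) ≤ 2 * d x + 2 * d y

variable {R : Type} [Ring R] {d : R → ℤ}

/-- the bilinear form -/
def Bf (d : R → ℤ) (x y : R) : ℤ := d (x + y) - d x - d y

namespace DegForm

theorem d2 (h : DegForm d) (x : R) : d (x + x) = 4 * d x := by
  rw [← two_mul, h.mul, h.two]

theorem d2' (h : DegForm d) (x : R) : d (2 * x) = 4 * d x := by
  rw [h.mul, h.two]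

/-- the parallelogram law -/
theorem pareq (h : DegForm d) (x y : R) : d (x + y) + d (x - y) = 2 * d x + 2 * d y := by
  have h1 := h.par x y
  have h2 := h.par (x + y) (x - y)
  have e1 : x + y + (x - y) = x + x := by abel
  have e2 : x + y - (x - y) = y + y := by abel
  rw [e1, e2, h.d2, h.d2] at h2
  linarith

theorem d0 (h : DegForm d) : d 0 = 0 := by
  have h1 := h.d2 0
  rw [add_zero] at h1
  linarith

theorem dneg (h : DegForm d) (x : R) : d (-x) = d x := by
  have h1 := h.pareq 0 x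
  rw [zero_add, zero_sub, h.d0] at h1
  linarith

/-- the cube law -/
theorem cube (h : DegForm d) (x y z : R) :
    d (x + y + z) = d (x + y) + d (y + z) + d (x + z) - d x - d y - d z := by
  have h1 := h.pareq (x + z) y
  have h2 := h.pareq x (y - z)
  have h3 := h.pareq (x + y) z
  have h4 := h.pareq y z
  have e1 : x + z + y = x + y + z := by abel
  have e2 : x + z - y = x - y + z := by abel
  have e3 : x + (y - z) = x + y - z := by abel
  have e4 : x - (y - z) = x - y + z := by abel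
  rw [e1, e2] at h1
  rw [e3, e4] at h2
  linarith

theorem Bcomm (x y : R) : Bf d x y = Bf d y x := by
  unfold Bf
  rw [add_comm x y]
  ring

theorem Badd (h : DegForm d) (x y z : R) : Bf d (x + y) z = Bf d x z + Bf d y z := by
  unfold Bf
  have h1 := h.cube x y z
  linarith

theorem Badd' (h : DegForm d) (x y z : R) : Bf d x (y + z) = Bf d x y + Bf d x z := by
  rw [Bcomm, h.Badd, Bcomm y, Bcomm z]

theorem B0 (h : DegForm d) (z : R) : Bf d 0 z = 0 := by
  unfold Bf
  rw [zero_add, h.d0]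
  ring

theorem Bneg (h : DegForm d) (x z : R) : Bf d (-x) z = -Bf d x z := by
  have h1 := h.Badd x (-x) z
  rw [add_neg_cancel, h.B0] at h1
  linarith

theorem Bsub (h : DegForm d) (x y z : R) : Bf d (x - y) z = Bf d x z - Bf d y z := by
  rw [sub_eq_add_neg, h.Badd, h.Bneg]
  ring

theorem Bnat (h : DegForm d) (n : ℕ) (x z : R) : Bf d ((n : R) * x) z = n * Bf d x z := by
  induction n with
  | zero => simp [h.B0]
  | succ n ih =>
    have e : ((n + 1 : ℕ) : R) * x = (n : R) * x + x := by push_cast; rw [add_mul, one_mul]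
    rw [e, h.Badd, ih]
    push_cast
    ring

theorem Bint (h : DegForm d) (n : ℤ) (x z : R) : Bf d ((n : R) * x) z = n * Bf d x z := by
  obtain ⟨m, rfl | rfl⟩ := n.eq_nat_or_neg
  · have := h.Bnat m x z
    simpa using this
  · have := h.Bnat m x z
    have e : (((-(m : ℤ) : ℤ)) : R) * x = -((m : R) * x) := by push_cast; rw [neg_mul]
    rw [e, h.Bneg, this]
    ring

theorem Bself (h : DegForm d) (x : R) : Bf d x x = 2 * d x := by
  unfold Bf
  rw [h.d2]
  ring

theorem dint (h : DegForm d) (n : ℤ) (x : R) : d ((n : R) * x) = n ^ 2 * d x := by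
  have h1 := h.Bself ((n : R) * x)
  rw [h.Bint, Bcomm, h.Bint, h.Bself] at h1
  linarith

theorem dint1 (h : DegForm d) (n : ℤ) : d (n : R) = n ^ 2 := by
  have h1 := h.dint n 1
  rw [mul_one, h.one, mul_one] at h1
  exact h1

theorem Bmul (h : DegForm d) (x y z : R) : Bf d (x * y) (x * z) = d x * Bf d y z := by
  unfold Bf
  rw [← mul_add, h.mul, h.mul, h.mul]
  ring

theorem Bmul' (h : DegForm d) (x y z : R) : Bf d (y * x) (z * x) = d x * Bf d y z := by
  unfold Bf
  rw [← add_mul, h.mul, h.mul, h.mul]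
  ring

theorem Bmix (h : DegForm d) (x y w z : R) :
    Bf d (x * y) (w * z) + Bf d (x * z) (w * y) = Bf d x w * Bf d y z := by
  have h1 := h.Bmul (x + w) y z
  have e1 : (x + w) * y = x * y + w * y := add_mul x w y
  have e2 : (x + w) * z = x * z + w * z := add_mul x w z
  rw [e1, e2, h.Badd, h.Badd', h.Badd', h.Bmul, h.Bmul] at h1
  have h2 : d (x + w) = d x + d w + Bf d x w := by unfold Bf; ring
  rw [h2] at h1
  have h3 := Bcomm (d := d) (w * y) (x * z)
  linarith

/-- Cayley-Hamilton -/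
theorem ch (h : DegForm d) (x : R) : x * x = (Bf d x 1 : R) * x - (d x : R) := by
  have key : ∀ z, Bf d (x * x - (Bf d x 1 : R) * x + (d x : R)) z = 0 := by
    intro z
    have h1 := h.Bmix x x 1 z
    have h2 := h.Bmul x z 1
    rw [one_mul, one_mul] at h1
    rw [mul_one] at h2
    have h3 : Bf d (d x : R) z = d x * Bf d 1 z := by
      have := h.Bint (d x) 1 z
      rwa [mul_one] at this
    rw [h.Badd, h.Bsub, h.Bint, h3, Bcomm 1 z]
    linarith
  have h4 := h.Bself (x * x - (Bf d x 1 : R) * x + (d x : R))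
  rw [key] at h4
  have h5 := h.zero _ (by linarith)
  rw [sub_add_eq_add_sub, sub_eq_zero] at h5
  rw [← h5, add_sub_cancel_right]

/-- polarised Cayley-Hamilton -/
theorem chp (h : DegForm d) (x y : R) :
    x * y + y * x = (Bf d x 1 : R) * y + (Bf d y 1 : R) * x - (Bf d x y : R) := by
  have h1 := h.ch (x + y)
  have h2 := h.ch x
  have h3 := h.ch y
  rw [h.Badd] at h1
  have h4 : d (x + y) = d x + d y + Bf d x y := by unfold Bf; ring
  rw [h4] at h1
  push_cast at h1
  rw [mul_add, add_mul, add_mul, h2, h3] at h1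
  have e : (↑(Bf d x 1) + ↑(Bf d y 1)) * (x + y) - (↑(d x) + ↑(d y) + (Bf d x y : R)) =
    ((Bf d x 1 : R) * x - (d x : R)) + ((Bf d y 1 : R) * y - (d y : R)) +
      ((Bf d x 1 : R) * y + (Bf d y 1 : R) * x - (Bf d x y : R)) := by noncomm_ring
  rw [e] at h1
  have h5 : ((Bf d x 1 : R) * x - (d x : R)) + y * x + (x * y + ((Bf d y 1 : R) * y - (d y : R))) =
    ((Bf d x 1 : R) * x - (d x : R)) + ((Bf d y 1 : R) * y - (d y : R)) + (x * y + y * x) := by abel
  rw [h5] at h1
  exact add_left_cancel h1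

/-- `d (F - m) = m² - s m + d F` -/
theorem dsub (h : DegForm d) (F : R) (m : ℤ) : d (F - (m : R)) = m ^ 2 - Bf d F 1 * m + d F := by
  have h1 : Bf d F (-(m : R)) = -(m * Bf d F 1) := by
    rw [Bcomm, h.Bneg]
    have h2 := h.Bint m 1 F
    rw [mul_one] at h2
    rw [h2, Bcomm]
  have h3 : d (F + -(m : R)) = d F + d (-(m : R)) + Bf d F (-(m : R)) := by unfold Bf; ring
  rw [sub_eq_add_neg, h3, h.dneg, h.dint1, h1]
  ring

/-- Hasse -/
theorem hasse (h : DegForm d) (F : R) : Bf d F 1 ^ 2 ≤ 4 * d F := by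
  have h1 := h.dsub (2 * F) (Bf d F 1)
  have h2 : Bf d (2 * F) 1 = 2 * Bf d F 1 := by
    have := h.Bint 2 F 1
    simpa using this
  rw [h2, h.d2'] at h1
  have h3 := h.nonneg (2 * F - (Bf d F 1 : R))
  rw [h1] at h3
  nlinarith

theorem mul_eq0 (h : DegForm d) {x y : R} (hxy : x * y = 0) : x = 0 ∨ y = 0 := by
  have h1 := h.mul x y
  rw [hxy, h.d0] at h1
  rcases mul_eq_zero.1 h1.symm with h2 | h2
  · exact Or.inl (h.zero x h2)
  · exact Or.inr (h.zero y h2)

theorem int_eq0 (h : DegForm d) {n : ℤ} (hn : (n : R) = 0) : n = 0 := by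
  have h1 := h.dint1 n
  rw [hn, h.d0] at h1
  exact pow_eq_zero_iff two_ne_zero |>.1 h1.symm

/-- `s = 0` if `F² = -l` -/
theorem s_zero (h : DegForm d) {F : R} {l : ℤ} (hl : l ≠ 0) (hdF : d F = l) (hF : F * F = -(l : R)) : Bf d F 1 = 0 := by
  have h3 := h.ch F
  rw [hF, hdF] at h3
  have h5 : (Bf d F 1 : R) * F = 0 := by
    have h6 := congrArg (fun z => z + (l : R)) h3
    beta_reduce at h6
    rw [sub_add_cancel, neg_add_cancel] at h6
    exact h6.symm
  rcases h.mul_eq0 h5 with h6 | h6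
  · exact h.int_eq0 h6
  · rw [h6, h.d0] at hdF
    exact absurd hdF.symm hl

/-- an element commuting with `F` -/
theorem comm_form (h : DegForm d) {F : R} {l : ℤ} (hl : Prime l) (hdF : d F = l) (hF : F * F = -(l : R)) {b : R}
    (hb : b * F = F * b) : ∃ t : ℤ, 2 * b = (Bf d b 1 : R) + (t : R) * F ∧ 4 * d b = Bf d b 1 ^ 2 + l * t ^ 2 := by
  have hs := h.s_zero hl.ne_zero hdF hF
  have h1 := h.chp b F
  rw [← hb, hs] at h1
  have h2 : (2 * b - (Bf d b 1 : R)) * F = -(Bf d b F : R) := by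
    have h3 : (2 * b - (Bf d b 1 : R)) * F = (b * F + b * F) - (Bf d b 1 : R) * F := by noncomm_ring
    rw [h3, h1]
    push_cast
    noncomm_ring
  have h4 := congrArg d h2
  rw [h.mul, h.dneg, h.dint1, hdF] at h4
  have h5 : l ∣ Bf d b F := by
    have h6 : l ∣ Bf d b F ^ 2 := ⟨d (2 * b - (Bf d b 1 : R)), by rw [← h4]; ring⟩
    exact hl.dvd_of_dvd_pow h6
  obtain ⟨t, ht⟩ := h5
  have h6 : (2 * b - (Bf d b 1 : R) - (t : R) * F) * F = 0 := by
    have h7 : (2 * b - (Bf d b 1 : R) - (t : R) * F) * F = (2 * b - (Bf d b 1 : R)) * F - (t : R) * (F * F) := by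
      noncomm_ring
    rw [h7, h2, ht, hF]
    push_cast
    have h8 : (l : R) * (t : R) = (t : R) * (l : R) := by
      rw [← Int.cast_mul, ← Int.cast_mul, mul_comm]
    rw [h8]
    noncomm_ring
  rcases h.mul_eq0 h6 with h7 | h7
  · refine ⟨t, ?_, ?_⟩
    · rw [sub_sub, sub_eq_zero] at h7
      exact h7
    · have h8 : d (2 * b) = d ((Bf d b 1 : R) + (t : R) * F) := by
        rw [sub_sub, sub_eq_zero] at h7
        rw [h7]
      have h9 : d ((Bf d b 1 : R) + (t : R) * F) = Bf d b 1 ^ 2 + t ^ 2 * l + Bf d (Bf d b 1 : R) ((t : R) * F) := by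
        rw [← h.dint1 (Bf d b 1), ← hdF, ← h.dint t F]
        unfold Bf
        ring
      have h10 : Bf d (Bf d b 1 : R) ((t : R) * F) = 0 := by
        rw [Bcomm, h.Bint]
        have h11 := h.Bint (Bf d b 1) 1 F
        rw [mul_one] at h11
        have h12 := Bcomm (d := d) F 1
        rw [Bcomm F, h11, ← h12, hs]
        ring
      rw [h9, h10, h.d2'] at h8
      linarith
  · rw [h7, h.d0] at hdF
    exact absurd hdF.symm hl.ne_zero

/-- the number of elements commuting with `F` -/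
theorem comm_count (h : DegForm d) {F : R} {l : ℤ} (hl : Prime l) (hl0 : 0 < l) (hdF : d F = l) (hF : F * F = -(l : R))
    (s : Finset R) (hs : ∀ b ∈ s, b * F = F * b) {D : ℤ} (hD : ∀ b ∈ s, d b ≤ D) {M1 M2 : ℕ} (h1 : 4 * D ≤ (M1 : ℤ) ^ 2)
    (h2 : 4 * D ≤ l * (M2 : ℤ) ^ 2) : s.card ≤ (2 * M1 + 1) * (2 * M2 + 1) := by
  classical
  have hex : ∀ b : R, ∃ t : ℤ, b ∈ s → 2 * b = (Bf d b 1 : R) + (t : R) * F ∧ 4 * d b = Bf d b 1 ^ 2 + l * t ^ 2 := by
    intro b
    by_cases hb : b ∈ s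
    · obtain ⟨t, ht⟩ := h.comm_form hl hdF hF (hs b hb)
      exact ⟨t, fun _ => ht⟩
    · exact ⟨0, fun h => absurd h hb⟩
  choose t ht using hex
  have hcard : s.card ≤ (Finset.Icc (-(M1 : ℤ)) M1 ×ˢ Finset.Icc (-(M2 : ℤ)) M2).card := by
    refine Finset.card_le_card_of_injOn (fun b => (Bf d b 1, t b)) ?_ ?_
    · intro b hb
      obtain ⟨-, h4⟩ := ht b hb
      have h5 := hD b hb
      rw [Finset.coe_product, Set.mem_prod, Finset.mem_coe, Finset.mem_coe, Finset.mem_Icc, Finset.mem_Icc]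
      have h6 : Bf d b 1 ^ 2 ≤ (M1 : ℤ) ^ 2 := by nlinarith [mul_nonneg hl0.le (sq_nonneg (t b))]
      have h7 : l * t b ^ 2 ≤ l * (M2 : ℤ) ^ 2 := by nlinarith [sq_nonneg (Bf d b 1)]
      have h8 : t b ^ 2 ≤ (M2 : ℤ) ^ 2 := le_of_mul_le_mul_left h7 hl0
      have h9 := abs_le_of_sq_le_sq' h6 (by positivity)
      have h10 := abs_le_of_sq_le_sq' h8 (by positivity)
      exact ⟨h9, h10⟩
    · intro b hb c hc hbc
      obtain ⟨h4, -⟩ := ht b hb
      obtain ⟨h5, -⟩ := ht c hc
      have h6 : Bf d b 1 = Bf d c 1 := congrArg Prod.fst hbc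
      have h7 : t b = t c := congrArg Prod.snd hbc
      rw [h6, h7, ← h5] at h4
      have h8 : (2 : R) * (b - c) = 0 := by rw [mul_sub, h4, sub_self]
      rcases h.mul_eq0 h8 with h9 | h9
      · have h10 := h.two
        rw [h9, h.d0] at h10
        norm_num at h10
      · exact sub_eq_zero.1 h9
  refine hcard.trans (le_of_eq ?_)
  rw [Finset.card_product, Int.card_Icc, Int.card_Icc]
  congr 1 <;> omega

end DegForm

end Pool.Agent.H13.AS
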